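import Mathlib
import Pool.Agent.Q210.Gal.Main

/-!
Failure of the Galvin property for fine normal ultrafilters on `P_κ(κ⁺)`, through families of
functions on `κ⁺` any `κ` members of which take `κ` different values at some point.

The setting is the one of the problem file: `κ` is uncountable, `X` is a set of size `κ⁺`, and
`U` is a `κ`-complete fine normal ultrafilter on `P_κ(X) = {x ⊆ X : |x| < κ}`.
-/

open Cardinal Set

namespace Pool.Agent.Results.MP_a3089e_lc.NonGalvinDoubleSucc

universe u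

/-- `P_κ(X)`, the set of subsets of `X` of size less than `κ`. -/
abbrev PK (κ : Cardinal.{u}) (X : Type u) : Type u := {x : Set X // #x < κ}

/-- `U` is a fine normal ultrafilter on `P_κ(X)`: it is `κ`-complete, fine, and every function
which is regressive on a set in `U` is constant on a set in `U`. -/
structure FineNormal {κ : Cardinal.{u}} {X : Type u} (U : Ultrafilter (PK κ X)) : Prop where
  complete : ∀ S : Set (Set (PK κ X)), #S < κ → (∀ s ∈ S, s ∈ U) → ⋂₀ S ∈ U
  fine : ∀ a : X, {x : PK κ X | a ∈ x.1} ∈ U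
  normal : ∀ f : PK κ X → X, {x : PK κ X | f x ∈ x.1} ∈ U →
    ∃ a : X, {x : PK κ X | f x = a} ∈ U

/-- The Galvin property `Gal(U, μ, θ)`: every family of `θ` distinct members of `U` has a
subfamily of size `μ` whose intersection is in `U`. -/
def Gal {α : Type u} (U : Ultrafilter α) (μ θ : Cardinal.{u}) : Prop :=
  ∀ S : Set (Set α), (∀ s ∈ S, s ∈ U) → #S = θ → ∃ T ⊆ S, #T = μ ∧ ⋂₀ T ∈ U

/-- The cardinal `κ⁺` as a well-ordered set. -/
abbrev Suc (κ : Cardinal.{u}) : Type u := (Order.succ κ).ord.ToType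

/-- Any `κ` members of the family `E` of functions from `κ⁺` to `κ⁺` take `κ` different values at
some point. -/
def Spread {κ : Cardinal.{u}} (E : Set (Suc κ → Suc κ)) : Prop :=
  ∀ T ⊆ E, #T = κ → ∃ b : Suc κ, #((fun g : Suc κ → Suc κ => g b) '' T) = κ

/-- Any two different members of the family `E` of functions from `κ⁺` to `κ⁺` have different
values at all points above some point. -/
def EventuallyDifferent {κ : Cardinal.{u}} (E : Set (Suc κ → Suc κ)) : Prop :=
  ∀ g ∈ E, ∀ h ∈ E, g ≠ h → ∃ c : Suc κ, ∀ b : Suc κ, c < b → g b ≠ h b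

lemma mk_suc (κ : Cardinal.{u}) : #(Suc κ) = Order.succ κ := by
  rw [Cardinal.mk_toType, Cardinal.card_ord]

/-- the sets of the points closed under the functions of a family with many values -/
theorem main {κ : Cardinal.{u}} {X : Type u} (hκ : ℵ₀ < κ) (U : Ultrafilter (PK κ X))
    (hU : FineNormal U) {ι : Type u} (G : ι → X → X) (hι : κ < #ι)
    (hP : ∀ T : Set ι, #T = κ → ∃ a : X, κ ≤ #((fun i : ι => G i a) '' T)) :
    ¬ Gal U κ #ι := by
  intro hGal
  let A : ι → Set (PK κ X) := fun i => {x | ∀ a ∈ x.1, G i a ∈ x.1}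
  have hA : ∀ i, A i ∈ U := fun i => Q210.Gal.closed_mem U hU.fine hU.normal (G i)
  have hsmall : ∀ T : Set ι, #T = κ → {x | ∀ i ∈ T, x ∈ A i} ∉ U := by
    intro T hT hmem
    obtain ⟨a, ha⟩ := hP T hT
    obtain ⟨x, hx1, hx2⟩ := Q210.Gal.ne_empty_of_mem U (Filter.inter_mem hmem (hU.fine a))
    have hsub : (fun i : ι => G i a) '' T ⊆ x.1 := by
      rintro _ ⟨i, hi, rfl⟩
      exact hx1 i hi a hx2
    exact absurd ((ha.trans (Cardinal.mk_le_mk_of_subset hsub))) (not_le.2 x.2)
  have hcard : #(Set.range A) = #ι := by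
    refine le_antisymm mk_range_le ?_
    have h1 : #ι ≤ #(Set.range A) * κ := by
      refine Cardinal.mk_le_mk_mul_of_mk_preimage_le (c := κ)
        (fun i : ι => (⟨A i, i, rfl⟩ : (Set.range A : Set _))) ?_
      rintro ⟨s, i0, rfl⟩
      by_contra hlt
      rw [not_le] at hlt
      obtain ⟨C, hC, hCκ⟩ := Cardinal.le_mk_iff_exists_subset.1 hlt.le
      refine hsmall C hCκ ?_
      filter_upwards [hA i0] with x hx i hi
      have h2 : A i = A i0 := congrArg Subtype.val (hC hi)
      rw [h2]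
      exact hx
    by_contra hlt
    rw [not_le] at hlt
    exact absurd h1 (not_le.2 (Cardinal.mul_lt_of_lt (hκ.le.trans hι.le) hlt hι))
  obtain ⟨T, hT, hTκ, hTU⟩ := hGal (Set.range A) (by rintro _ ⟨i, rfl⟩; exact hA i) hcard
  have hch : ∀ s : T, ∃ i, A i = s.1 := fun s => hT s.2
  choose f hf using hch
  refine hsmall (Set.range f) ?_ ?_
  · have hinj : Function.Injective f := by
      intro s s' h
      apply Subtype.ext
      rw [← hf s, ← hf s', h]
    rw [Cardinal.mk_range_eq _ hinj]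
    exact hTκ
  · filter_upwards [hTU] with x hx
    rintro _ ⟨s, rfl⟩
    rw [hf s]
    exact hx s.1 s.2

/-- fewer than `κ⁺` points of `κ⁺` are bounded -/
lemma exists_gt {κ : Cardinal.{u}} (hκ : ℵ₀ ≤ κ) (S : Set (Suc κ)) (hS : #S < Order.succ κ) :
    ∃ b : Suc κ, ∀ k ∈ S, k < b := by
  have hreg : (Order.succ κ).IsRegular := Cardinal.isRegular_succ hκ
  have hunb : ¬ IsCofinal S := by
    intro hcof
    have h8 := Order.cof_le hcof
    rw [Ordinal.cof_toType, hreg.cof_ord] at h8
    exact absurd hS (not_lt.2 h8)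
  unfold IsCofinal at hunb
  push Not at hunb
  exact hunb

/-- an eventually different family is spread -/
lemma spread_of_eventuallyDifferent {κ : Cardinal.{u}} (hκ : ℵ₀ ≤ κ)
    (E : Set (Suc κ → Suc κ)) (hE : EventuallyDifferent E) : Spread E := by
  classical
  intro T hTE hT
  have hne : Nonempty (Suc κ) := by
    rw [← Cardinal.mk_ne_zero_iff, mk_suc]
    exact (lt_of_lt_of_le aleph0_pos (hκ.trans (Order.le_succ κ))).ne'
  have hd : ∀ p : T × T, ∃ c : Suc κ, p.1.1 ≠ p.2.1 → ∀ b : Suc κ, c < b → p.1.1 b ≠ p.2.1 b := by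
    intro p
    by_cases hp : p.1.1 = p.2.1
    · exact ⟨Classical.choice hne, fun h => absurd hp h⟩
    · obtain ⟨c, hc⟩ := hE _ (hTE p.1.2) _ (hTE p.2.2) hp
      exact ⟨c, fun _ => hc⟩
  choose d hd using hd
  have hpairs : #(Set.range d) < Order.succ κ := by
    refine lt_of_le_of_lt mk_range_le ?_
    rw [Cardinal.mk_prod, Cardinal.lift_id, hT, Cardinal.mul_eq_self hκ]
    exact Order.lt_succ κ
  obtain ⟨b, hb⟩ := exists_gt hκ _ hpairs
  refine ⟨b, ?_⟩
  rw [Cardinal.mk_image_eq_of_injOn, hT]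
  intro g hg h hh hgh
  by_contra hne'
  exact hd (⟨g, hg⟩, ⟨h, hh⟩) hne' b (hb _ ⟨_, rfl⟩) hgh

/-- there are `κ⁺⁺` eventually different functions -/
lemma exists_eventuallyDifferent {κ : Cardinal.{u}} (hκ : ℵ₀ ≤ κ) :
    ∃ E : Set (Suc κ → Suc κ), #E = Order.succ (Order.succ κ) ∧ EventuallyDifferent E := by
  classical
  have hne : Nonempty (Suc κ) := by
    rw [← Cardinal.mk_ne_zero_iff, mk_suc]
    exact (lt_of_lt_of_le aleph0_pos (hκ.trans (Order.le_succ κ))).ne'
  obtain ⟨M, hM⟩ := zorn_subset {E : Set (Suc κ → Suc κ) | EventuallyDifferent E} (by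
    intro c hc hchain
    refine ⟨⋃₀ c, ?_, fun s hs => Set.subset_sUnion_of_mem hs⟩
    rintro g ⟨s, hs, hg⟩ h ⟨t, ht, hh⟩ hgh
    rcases hchain.total hs ht with hst | hts
    · exact hc ht g (hst hg) h hh hgh
    · exact hc hs g hg h (hts hh) hgh)
  have hMd : EventuallyDifferent M := hM.prop
  have hbig : Order.succ (Order.succ κ) ≤ #M := by
    rw [Order.succ_le_iff]
    by_contra hle
    rw [not_lt] at hle
    -- enumerate `M` (and one more function)
    have hle2 : #M ≤ #(Suc κ) := by rw [mk_suc]; exact hle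
    obtain ⟨em⟩ := hle2
    let F : Suc κ → (Suc κ → Suc κ) := fun k =>
      if h : ∃ m : M, em m = k then h.choose.1 else id
    have hF : ∀ m : M, F (em m) = m.1 := by
      intro m
      have h : ∃ m' : M, em m' = em m := ⟨m, rfl⟩
      have h2 : F (em m) = h.choose.1 := by simp only [F]; rw [dif_pos h]
      rw [h2, em.injective h.choose_spec]
    have hnew : ∀ b : Suc κ, ∃ v : Suc κ, ∀ k < b, F k b ≠ v := by
      intro b
      by_contra hno
      push Not at hno
      have hsurj : (Set.univ : Set (Suc κ)) ⊆ (fun k => F k b) '' Set.Iio b := by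
        intro v _
        obtain ⟨k, hk, hv⟩ := hno v
        exact ⟨k, hk, hv⟩
      have h1 := (Cardinal.mk_le_mk_of_subset hsurj).trans Cardinal.mk_image_le
      rw [Cardinal.mk_univ, mk_suc] at h1
      have h2 : #(Set.Iio b) < Order.succ κ := Cardinal.mk_Iio_toType_ord_lt b
      exact absurd h2 (not_lt.2 h1)
    choose g hg using hnew
    have hgM : ∀ m : M, ∀ b : Suc κ, em m < b → g b ≠ m.1 b := by
      intro m b hb h
      have h3 := hg b (em m) hb
      rw [hF m] at h3
      exact h3 h.symm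
    have hgnot : g ∉ M := by
      intro hmem
      obtain ⟨b, hb⟩ := exists_gt hκ {em ⟨g, hmem⟩} (by
        rw [Cardinal.mk_singleton]
        exact (one_lt_aleph0.trans_le hκ).trans_le (Order.le_succ κ))
      exact hgM ⟨g, hmem⟩ b (hb _ rfl) rfl
    have hins : EventuallyDifferent (insert g M) := by
      intro p hp q hq hpq
      rcases hp with rfl | hp
      · rcases hq with rfl | hq
        · exact absurd rfl hpq
        · exact ⟨em ⟨q, hq⟩, fun b hb => hgM ⟨q, hq⟩ b hb⟩
      · rcases hq with rfl | hq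
        · exact ⟨em ⟨p, hp⟩, fun b hb => (hgM ⟨p, hp⟩ b hb).symm⟩
        · exact hMd p hp q hq hpq
    exact hgnot (hM.le_of_ge hins (Set.subset_insert g M) (Set.mem_insert g M))
  obtain ⟨E, hEM, hE⟩ := Cardinal.le_mk_iff_exists_subset.1 hbig
  exact ⟨E, hE, fun g hg h hh => hMd g (hEM hg) h (hEM hh)⟩

/-- if `2 ^ κ = κ⁺` there are `2 ^ κ⁺` eventually different functions -/
lemma exists_eventuallyDifferent_of_two_power {κ : Cardinal.{u}} (hκ : ℵ₀ ≤ κ)
    (h2 : 2 ^ κ = Order.succ κ) :
    ∃ E : Set (Suc κ → Suc κ), #E = 2 ^ Order.succ κ ∧ EventuallyDifferent E := by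
  classical
  have hcode : ∀ b : Suc κ, Nonempty (Set (Set.Iio b) ↪ Suc κ) := by
    intro b
    rw [← Cardinal.le_def, mk_suc, Cardinal.mk_set]
    refine (Cardinal.power_le_power_left two_ne_zero ?_).trans h2.le
    have := Cardinal.mk_Iio_toType_ord_lt b
    exact Order.lt_succ_iff.1 this
  let code : ∀ b : Suc κ, Set (Set.Iio b) ↪ Suc κ := fun b => Classical.choice (hcode b)
  let g : Set (Suc κ) → Suc κ → Suc κ := fun A b => code b (Subtype.val ⁻¹' A)
  have hg : ∀ A A' : Set (Suc κ), A ≠ A' → ∃ c : Suc κ, ∀ b : Suc κ, c < b → g A b ≠ g A' b := by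
    intro A A' hne
    obtain ⟨c, hc⟩ : ∃ c, ¬ (c ∈ A ↔ c ∈ A') := by
      by_contra hno
      push Not at hno
      exact hne (Set.ext fun k => hno k)
    refine ⟨c, fun b hb h => hc ?_⟩
    have h3 := (code b).injective h
    have h4 := Set.ext_iff.1 h3 ⟨c, hb⟩
    exact h4
  have hinj : Function.Injective g := by
    intro A A' h
    by_contra hne
    obtain ⟨c, hc⟩ := hg A A' hne
    obtain ⟨b, hb⟩ := exists_gt hκ {c} (by
      rw [Cardinal.mk_singleton]
      exact (one_lt_aleph0.trans_le hκ).trans_le (Order.le_succ κ))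
    exact hc b (hb c rfl) (by rw [h])
  refine ⟨Set.range g, ?_, ?_⟩
  · rw [Cardinal.mk_range_eq _ hinj, Cardinal.mk_set, mk_suc]
  · rintro _ ⟨A, rfl⟩ _ ⟨A', rfl⟩ hne
    exact hg A A' (fun h => hne (by rw [h]))

/-- Let `U` be a fine normal ultrafilter on `P_κ(κ⁺)`. Then `Gal(U, κ, κ⁺⁺)` fails, with no
hypothesis on cardinal arithmetic, and `Gal(U, κ, 2 ^ κ⁺)` fails if `2 ^ κ = κ⁺` or
`2 ^ κ⁺ = κ⁺⁺`. More generally `Gal(U, κ, |E|)` fails for every family `E` of at least `κ⁺`
functions from `κ⁺` to `κ⁺`, any `κ` members of which take `κ` different values at some point, for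
instance if any two different members of `E` have different values at all large points. -/
theorem result (κ : Cardinal.{u}) (X : Type u) (hκ : ℵ₀ < κ) (hX : #X = Order.succ κ)
    (U : Ultrafilter (PK κ X)) (hU : FineNormal U) :
    ¬ Gal U κ (Order.succ (Order.succ κ)) ∧
    (2 ^ κ = Order.succ κ ∨ 2 ^ Order.succ κ = Order.succ (Order.succ κ) →
      ¬ Gal U κ (2 ^ Order.succ κ)) ∧
    (∀ E : Set (Suc κ → Suc κ), Order.succ κ ≤ #E → Spread E → ¬ Gal U κ #E) ∧
    (∀ E : Set (Suc κ → Suc κ), Order.succ κ ≤ #E → EventuallyDifferent E → ¬ Gal U κ #E) := by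
  have h3 : ∀ E : Set (Suc κ → Suc κ), Order.succ κ ≤ #E → Spread E → ¬ Gal U κ #E := by
    intro E hE hS
    obtain ⟨e⟩ : Nonempty (X ≃ Suc κ) := by
      rw [← Cardinal.eq, hX, mk_suc]
    refine main hκ U hU (fun (g : E) a => e.symm (g.1 (e a))) ((Order.lt_succ κ).trans_le hE) ?_
    intro T hT
    obtain ⟨b, hb⟩ := hS (Subtype.val '' T) (by rintro _ ⟨g, _, rfl⟩; exact g.2) (by
      rw [Cardinal.mk_image_eq Subtype.val_injective]; exact hT)
    refine ⟨e.symm b, hb.ge.trans ?_⟩
    have himg : (fun i : E => e.symm (i.1 (e (e.symm b)))) '' T =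
        e.symm '' ((fun g : Suc κ → Suc κ => g b) '' (Subtype.val '' T)) := by
      rw [Set.image_image, Set.image_image]
      simp only [Equiv.apply_symm_apply]
    rw [himg, Cardinal.mk_image_eq e.symm.injective]
  have h4 : ∀ E : Set (Suc κ → Suc κ), Order.succ κ ≤ #E → EventuallyDifferent E →
      ¬ Gal U κ #E := fun E hE hd => h3 E hE (spread_of_eventuallyDifferent hκ.le E hd)
  have h1 : ¬ Gal U κ (Order.succ (Order.succ κ)) := by
    obtain ⟨E, hE, hd⟩ := exists_eventuallyDifferent hκ.le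
    have := h4 E (by rw [hE]; exact Order.le_succ _) hd
    rwa [hE] at this
  refine ⟨h1, ?_, h3, h4⟩
  rintro (h2 | h2)
  · obtain ⟨E, hE, hd⟩ := exists_eventuallyDifferent_of_two_power hκ.le h2
    have := h4 E (by rw [hE]; exact (Cardinal.cantor _).le) hd
    rwa [hE] at this
  · rwa [h2]

end Pool.Agent.Results.MP_a3089e_lc.NonGalvinDoubleSucc
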